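import Pool.Agent.K1H14.SD.Stm2

/-! Piece TRV of the project SD: the symplectic group is generated by transvections. -/

set_option autoImplicit false

namespace Pool.Agent.K1H77.SD

section Abs

variable {V : Type*} [AddCommGroup V] [Module ℂ V] (b : V →ₗ[ℂ] V →ₗ[ℂ] ℂ)
  (K : Submonoid (Module.End ℂ V))

/-- transvection -/
noncomputable def tv (x : V) (a : ℂ) : Module.End ℂ V := 1 + a • (b x).smulRight x

lemma tv_apply (x : V) (a : ℂ) (y : V) : tv b x a y = y + a • (b x y • x) := by
  simp [tv, LinearMap.smulRight_apply]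

/-- isometries which fix `F` and have a left inverse in `K` -/
def G (F : Submodule ℂ V) (h : Module.End ℂ V) : Prop :=
  (∀ f ∈ F, h f = f) ∧ (∀ x y, b (h x) (h y) = b x y) ∧ ∃ h' ∈ K, h' * h = 1

variable {b K}

lemma G_mul {F : Submodule ℂ V} {h1 h2 : Module.End ℂ V} (H1 : G b K F h1) (H2 : G b K F h2) :
    G b K F (h1 * h2) := by
  obtain ⟨a1, a2, k1, hk1, e1⟩ := H1
  obtain ⟨c1, c2, k2, hk2, e2⟩ := H2
  refine ⟨fun f hf => ?_, fun x y => ?_, k2 * k1, K.mul_mem hk2 hk1, ?_⟩
  · rw [Module.End.mul_apply, c1 f hf, a1 f hf]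
  · rw [Module.End.mul_apply, Module.End.mul_apply, a2, c2]
  · rw [mul_assoc, ← mul_assoc k1, e1, one_mul, e2]

lemma skew (hb : ∀ x, b x x = 0) (x y : V) : b x y = - b y x := by
  have h := hb (x + y)
  simp only [map_add, LinearMap.add_apply, hb, zero_add, add_zero] at h
  linear_combination h

lemma G_tv (hb : ∀ x, b x x = 0) (hK : ∀ x a, tv b x a ∈ K) {F : Submodule ℂ V} {x : V}
    (hx : ∀ f ∈ F, b x f = 0) (a : ℂ) : G b K F (tv b x a) := by
  refine ⟨fun f hf => ?_, fun y z => ?_, tv b x (-a), hK x (-a), ?_⟩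
  · rw [tv_apply, hx f hf, zero_smul, smul_zero, add_zero]
  · rw [tv_apply, tv_apply]
    simp only [map_add, map_smul, LinearMap.add_apply, LinearMap.smul_apply, smul_eq_mul, hb,
      mul_zero, add_zero]
    rw [skew hb y x]
    ring
  · ext y
    rw [Module.End.mul_apply, tv_apply, tv_apply, map_add, map_smul, map_smul, hb, smul_zero,
      smul_zero, add_zero, neg_smul, Module.End.one_apply]
    abel

lemma G_one {F : Submodule ℂ V} : G b K F 1 :=
  ⟨fun _ _ => rfl, fun _ _ => rfl, 1, K.one_mem, one_mul 1⟩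

/-- one transvection moves `w` to `w'` -/
lemma step (hb : ∀ x, b x x = 0) (hK : ∀ x a, tv b x a ∈ K) {F : Submodule ℂ V} {w w' : V}
    (hw : ∀ f ∈ F, b w f = 0) (hw' : ∀ f ∈ F, b w' f = 0) (hne : b w w' ≠ 0) :
    ∃ h, G b K F h ∧ h w = w' ∧ ∀ v, b v w = b v w' → h v = v := by
  refine ⟨tv b (w' - w) (b w' w)⁻¹, G_tv hb hK (fun f hf => ?_) _, ?_, fun v hv => ?_⟩
  · rw [map_sub, LinearMap.sub_apply, hw f hf, hw' f hf, sub_zero]
  · have h1 : b w' w ≠ 0 := by
      rw [skew hb w' w]
      exact neg_ne_zero.2 hne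
    rw [tv_apply, map_sub, LinearMap.sub_apply, hb, sub_zero, smul_smul, inv_mul_cancel₀ h1,
      one_smul]
    abel
  · have h1 : b (w' - w) v = 0 := by
      rw [map_sub, LinearMap.sub_apply, skew hb w' v, skew hb w v, hv]
      ring
    rw [tv_apply, h1, zero_smul, smul_zero, add_zero]

/-- the form is nondegenerate on the orthogonal complement of `F` -/
def ND (b : V →ₗ[ℂ] V →ₗ[ℂ] ℂ) (F : Submodule ℂ V) : Prop :=
  ∀ x, (∀ f ∈ F, b x f = 0) → x ≠ 0 → ∃ y, (∀ f ∈ F, b y f = 0) ∧ b x y ≠ 0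

lemma move (hb : ∀ x, b x x = 0) (hK : ∀ x a, tv b x a ∈ K) {F : Submodule ℂ V} (hF : ND b F)
    {v w : V} (hv : ∀ f ∈ F, b v f = 0) (hw : ∀ f ∈ F, b w f = 0) (hv0 : v ≠ 0) (hw0 : w ≠ 0) :
    ∃ h, G b K F h ∧ h v = w := by
  by_cases hne : b v w = 0
  · obtain ⟨u, hu, h1, h2⟩ : ∃ u, (∀ f ∈ F, b u f = 0) ∧ b v u ≠ 0 ∧ b w u ≠ 0 := by
      obtain ⟨u1, hu1, g1⟩ := hF v hv hv0
      obtain ⟨u2, hu2, g2⟩ := hF w hw hw0
      by_cases a1 : b w u1 = 0
      · by_cases a2 : b v u2 = 0
        · refine ⟨u1 + u2, fun f hf => ?_, ?_, ?_⟩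
          · rw [map_add, LinearMap.add_apply, hu1 f hf, hu2 f hf, add_zero]
          · rw [map_add, a2, add_zero]; exact g1
          · rw [map_add, a1, zero_add]; exact g2
        · exact ⟨u2, hu2, a2, g2⟩
      · exact ⟨u1, hu1, g1, a1⟩
    obtain ⟨k1, K1, e1, _⟩ := step hb hK hv hu h1
    obtain ⟨k2, K2, e2, _⟩ := step hb hK hu hw (by
      rw [skew hb u w]; exact neg_ne_zero.2 h2)
    exact ⟨k2 * k1, G_mul K2 K1, by rw [Module.End.mul_apply, e1, e2]⟩
  · obtain ⟨k, K1, e1, _⟩ := step hb hK hv hw hne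
    exact ⟨k, K1, e1⟩

lemma move2 (hb : ∀ x, b x x = 0) (hK : ∀ x a, tv b x a ∈ K) {F : Submodule ℂ V}
    {v w w' : V} (hv : ∀ f ∈ F, b v f = 0) (hw : ∀ f ∈ F, b w f = 0)
    (hw' : ∀ f ∈ F, b w' f = 0) (h1 : b v w = 1) (h2 : b v w' = 1) :
    ∃ h, G b K F h ∧ h v = v ∧ h w = w' := by
  by_cases hne : b w w' = 0
  · have hvw : ∀ f ∈ F, b (v + w) f = 0 := fun f hf => by
      rw [map_add, LinearMap.add_apply, hv f hf, hw f hf, add_zero]
    obtain ⟨k1, K1, e1, p1⟩ := step hb hK hw hvw (by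
      rw [map_add, hb, add_zero, skew hb w v, h1]; norm_num)
    obtain ⟨k2, K2, e2, p2⟩ := step hb hK hvw hw' (by
      rw [map_add, LinearMap.add_apply, h2, hne]; norm_num)
    refine ⟨k2 * k1, G_mul K2 K1, ?_, ?_⟩
    · rw [Module.End.mul_apply, p1 v (by rw [map_add, hb, zero_add]),
        p2 v (by rw [map_add, hb, zero_add, h1, h2])]
    · rw [Module.End.mul_apply, e1, e2]
  · obtain ⟨k, K1, e1, p1⟩ := step hb hK hw hw' hne
    exact ⟨k, K1, p1 v (h1.trans h2.symm), e1⟩

theorem main [FiniteDimensional ℂ V] (hb : ∀ x, b x x = 0) (hK : ∀ x a, tv b x a ∈ K)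
    (F : Submodule ℂ V) : ND b F → ∀ s : Module.End ℂ V, (∀ x y, b (s x) (s y) = b x y) →
      (∀ f ∈ F, s f = f) → s ∈ K := by
  induction F using WellFoundedGT.induction with
  | ind F ih =>
    intro hF s hs hsF
    by_cases h0 : ∃ v, (∀ f ∈ F, b v f = 0) ∧ v ≠ 0
    · obtain ⟨v, hv, hv0⟩ := h0
      obtain ⟨y, hy, hvy⟩ := hF v hv hv0
      set w : V := (b v y)⁻¹ • y with hwdef
      have hw : ∀ f ∈ F, b w f = 0 := fun f hf => by
        rw [hwdef, map_smul, LinearMap.smul_apply, hy f hf, smul_zero]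
      have hvw : b v w = 1 := by
        rw [hwdef, map_smul, smul_eq_mul, inv_mul_cancel₀ hvy]
      have hpres : ∀ (g : Module.End ℂ V), (∀ x y, b (g x) (g y) = b x y) → (∀ f ∈ F, g f = f) →
          ∀ x, (∀ f ∈ F, b x f = 0) → ∀ f ∈ F, b (g x) f = 0 := by
        intro g hg hgF x hx f hf
        have h1 := hg x f
        rw [hgF f hf] at h1
        rw [h1, hx f hf]
      have hsv := hpres s hs hsF v hv
      have hsw := hpres s hs hsF w hw
      have hsv0 : s v ≠ 0 := by
        intro h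
        have h1 := hs v w
        rw [h, hvw, map_zero, LinearMap.zero_apply] at h1
        exact zero_ne_one h1
      obtain ⟨k1, G1, e1⟩ := move hb hK hF hsv hv hsv0 hv0
      have hw1 := hpres k1 G1.2.1 G1.1 (s w) hsw
      have hvw1 : b v (k1 (s w)) = 1 := by
        rw [← e1, G1.2.1, hs, hvw]
      obtain ⟨k2, G2, e2, e3⟩ := move2 hb hK hv hw1 hw hvw1 hvw
      have G3 := G_mul G2 G1
      obtain ⟨g1, g2, k', hk', ek⟩ := G3
      set r : Module.End ℂ V := (k2 * k1) * s with hr
      have hrv : r v = v := by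
        rw [hr, Module.End.mul_apply, Module.End.mul_apply, e1, e2]
      have hrw : r w = w := by
        rw [hr, Module.End.mul_apply, Module.End.mul_apply, e3]
      have hrF : ∀ f ∈ F, r f = f := fun f hf => by
        rw [hr, Module.End.mul_apply, hsF f hf, g1 f hf]
      set F' : Submodule ℂ V := F ⊔ Submodule.span ℂ {v, w} with hF'
      have hlt : F < F' := by
        refine lt_of_le_of_ne le_sup_left fun h => ?_
        have h1 : v ∈ F := by
          rw [h]
          exact Submodule.mem_sup_right (Submodule.subset_span (by simp))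
        have h2 := hw v h1
        rw [skew hb w v, hvw] at h2
        norm_num at h2
      have hr' : ∀ f ∈ F', r f = f := by
        intro f hf
        obtain ⟨f1, hf1, f2, hf2, rfl⟩ := Submodule.mem_sup.1 hf
        obtain ⟨c1, c2, rfl⟩ := Submodule.mem_span_pair.1 hf2
        rw [map_add, map_add, map_smul, map_smul, hrF f1 hf1, hrv, hrw]
      have hND : ND b F' := by
        intro x hx hx0
        have hxF : ∀ f ∈ F, b x f = 0 := fun f hf => hx f (Submodule.mem_sup_left hf)
        have hxv : b x v = 0 := hx v (Submodule.mem_sup_right (Submodule.subset_span (by simp)))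
        have hxw : b x w = 0 := hx w (Submodule.mem_sup_right (Submodule.subset_span (by simp)))
        obtain ⟨y, hy, hxy⟩ := hF x hxF hx0
        refine ⟨y - b y w • v + b y v • w, fun f hf => ?_, ?_⟩
        · obtain ⟨f1, hf1, f2, hf2, rfl⟩ := Submodule.mem_sup.1 hf
          obtain ⟨c1, c2, rfl⟩ := Submodule.mem_span_pair.1 hf2
          simp only [map_add, map_sub, map_smul, LinearMap.add_apply, LinearMap.sub_apply,
            LinearMap.smul_apply, smul_eq_mul, hy f1 hf1, hv f1 hf1, hw f1 hf1, hb, hvw,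
            skew hb w v]
          ring
        · simp only [map_add, map_sub, map_smul, smul_eq_mul, hxv, hxw, mul_zero, sub_zero,
            add_zero]
          exact hxy
      have hrK := ih F' hlt hND r (fun x y => (g2 (s x) (s y)).trans (hs x y)) hr'
      have : s = k' * r := by
        rw [hr, ← mul_assoc, ek, one_mul]
      rw [this]
      exact K.mul_mem hk' hrK
    · push Not at h0
      have : s = 1 := by
        ext x
        rw [Module.End.one_apply]
        refine sub_eq_zero.1 (h0 (s x - x) fun f hf => ?_)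
        rw [map_sub, LinearMap.sub_apply]
        have h1 := hs x f
        rw [hsF f hf] at h1
        rw [h1, sub_self]
      rw [this]
      exact K.one_mem

end Abs

theorem t_TRV : Pool.Agent.K1H14.SD.S_TRV := by
  intro N B s hB hdet hs H hH
  set b : (Fin N → ℂ) →ₗ[ℂ] (Fin N → ℂ) →ₗ[ℂ] ℂ := Matrix.toLinearMap₂' ℂ B with hbdef
  have hbv : ∀ v w, b v w = v ⬝ᵥ (B.mulVec w) := fun v w => by
    rw [hbdef, Matrix.toLinearMap₂'_apply']
  have hsk : ∀ v w, b v w = - b w v := by
    intro v w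
    rw [hbv, hbv, Matrix.dotProduct_mulVec, ← Matrix.mulVec_transpose, hB, Matrix.neg_mulVec,
      neg_dotProduct, dotProduct_comm]
  have hb : ∀ x, b x x = 0 := fun x => by
    have h := hsk x x
    have h2 : (2 : ℂ) * b x x = 0 := by linear_combination h
    exact (mul_eq_zero.1 h2).resolve_left two_ne_zero
  set K : Submonoid (Module.End ℂ (Fin N → ℂ)) :=
    H.comap (LinearMap.toMatrixAlgEquiv' (R := ℂ) (n := Fin N)).toMulEquiv.toMonoidHom with hK
  have memK : ∀ f : Module.End ℂ (Fin N → ℂ), f ∈ K ↔ LinearMap.toMatrix' f ∈ H := fun f =>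
    Iff.rfl
  have hKt : ∀ x a, tv b x a ∈ K := by
    intro x a
    rw [memK]
    have h1 : tv b x a = Matrix.toLin' (1 + a • Matrix.vecMulVec x (Matrix.vecMul x B)) := by
      refine LinearMap.ext fun y => ?_
      rw [tv_apply, Matrix.toLin'_apply, Matrix.add_mulVec, Matrix.one_mulVec, hbv,
        Matrix.smul_mulVec, Matrix.dotProduct_mulVec]
      congr 2
      funext i
      simp only [Matrix.mulVec, dotProduct, Matrix.vecMulVec_apply, Pi.smul_apply, smul_eq_mul]
      rw [Finset.sum_mul]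
      exact Finset.sum_congr rfl fun j _ => by ring
    rw [h1, LinearMap.toMatrix'_toLin']
    exact hH x a
  have hND : ND b ⊥ := by
    intro x _ hx0
    by_contra hcon
    push Not at hcon
    apply hx0
    have h1 : Matrix.vecMul x B = 0 := by
      ext i
      have h2 := hcon (Pi.single i 1) (fun f hf => by
        rw [(Submodule.mem_bot ℂ).1 hf, map_zero])
      rw [hbv, Matrix.dotProduct_mulVec] at h2
      simpa using h2
    have h3 : Matrix.vecMul (Matrix.vecMul x B) B⁻¹ = x := by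
      rw [Matrix.vecMul_vecMul, Matrix.mul_nonsing_inv _ hdet, Matrix.vecMul_one]
    rw [← h3, h1, Matrix.zero_vecMul]
  have hfin := main hb hKt ⊥ hND (Matrix.toLin' s) (fun x y => by
    rw [hbv, hbv, Matrix.toLin'_apply, Matrix.toLin'_apply]
    have h1 : (s.transpose * B * s).mulVec y = s.transpose.mulVec (B.mulVec (s.mulVec y)) := by
      rw [Matrix.mulVec_mulVec, Matrix.mulVec_mulVec, Matrix.mul_assoc]
    rw [hs] at h1
    rw [h1, Matrix.dotProduct_mulVec x, Matrix.vecMul_transpose]) (fun f hf => by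
      rw [(Submodule.mem_bot ℂ).1 hf, map_zero])
  rw [memK, LinearMap.toMatrix'_toLin'] at hfin
  exact hfin

end Pool.Agent.K1H77.SD
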